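import Pool.Agent.P.MP_1f345d_an.G.Cover

/-! From coverings by chains of boxes to common hypercyclic vectors: the Baire argument. -/

set_option autoImplicit false
set_option linter.dupNamespace false
set_option linter.unusedVariables false
open Filter Topology
open scoped ZeroAtInfty

namespace Pool.Agent.P.MP_1f345d_an.G

variable {𝕜 : Type} [RCLike 𝕜] {d : ℕ}

lemma rol_iter (w : Fin d → ℝ) (k : ℕ) (x : Fin d → C₀(ℕ, 𝕜)) (i : Fin d) (n : ℕ) :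
    ((rol w)^[k] x) i n = ((Real.exp ((k : ℝ) * w i) : ℝ) : 𝕜) * x i (n + k) := by
  induction k generalizing n with
  | zero => simp
  | succ k ih =>
    rw [Function.iterate_succ_apply']
    change ((Real.exp (w i) : ℝ) : 𝕜) • ((rol w)^[k] x) i (n + 1) = _
    rw [ih, smul_eq_mul, ← mul_assoc, ← RCLike.ofReal_mul, ← Real.exp_add, Nat.add_assoc,
      Nat.add_comm 1 k]
    congr 3
    push_cast
    ring

open Classical in
/-- the sequence made of scaled copies of `u` placed at the times of the chain -/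
noncomputable def blk {P : Type} (T : Set (ℕ × P)) (c : ℕ × P → ℝ) (u : ℕ → 𝕜) (N n : ℕ) : 𝕜 :=
  if h : ∃ t ∈ T, t.1 ≤ n ∧ n < t.1 + N then
    ((Real.exp (-((h.choose.1 : ℝ) * c h.choose)) : ℝ) : 𝕜) * u (n - h.choose.1)
  else 0

section

variable {P : Type} {T : Set (ℕ × P)} {c : ℕ × P → ℝ} {u : ℕ → 𝕜} {N : ℕ} {G : ℝ}

lemma blk_cases (n : ℕ) :
    (blk T c u N n = 0 ∧ ∀ t ∈ T, ¬ (t.1 ≤ n ∧ n < t.1 + N)) ∨
    ∃ t ∈ T, t.1 ≤ n ∧ n < t.1 + N ∧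
      blk T c u N n = ((Real.exp (-((t.1 : ℝ) * c t)) : ℝ) : 𝕜) * u (n - t.1) := by
  unfold blk
  split_ifs with h
  · right
    exact ⟨h.choose, h.choose_spec.1, h.choose_spec.2.1, h.choose_spec.2.2, rfl⟩
  · left
    exact ⟨rfl, fun t ht h' => h ⟨t, ht, h'⟩⟩

lemma norm_exp_mul (r : ℝ) (y : 𝕜) : ‖((Real.exp r : ℝ) : 𝕜) * y‖ = Real.exp r * ‖y‖ := by
  rw [norm_mul, RCLike.norm_ofReal, abs_of_pos (Real.exp_pos _)]

lemma blk_norm_le {R D : ℝ} (hR : ∀ n, ‖u n‖ ≤ R) (hD : ∀ t ∈ T, D ≤ (t.1 : ℝ) * c t) (n : ℕ) :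
    ‖blk T c u N n‖ ≤ Real.exp (-D) * R := by
  have hR0 : 0 ≤ R := (norm_nonneg _).trans (hR 0)
  rcases blk_cases (T := T) (c := c) (u := u) (N := N) n with ⟨h, -⟩ | ⟨t, ht, -, -, h⟩
  · rw [h, norm_zero]; positivity
  · rw [h, norm_exp_mul]
    exact mul_le_mul (Real.exp_le_exp.2 (by linarith [hD t ht])) (hR _) (norm_nonneg _)
      (Real.exp_pos _).le

lemma blk_eq_zero {M : ℕ} (hM : ∀ t ∈ T, t.1 ≤ M) {n : ℕ} (hn : M + N ≤ n) :
    blk T c u N n = 0 := by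
  rcases blk_cases (T := T) (c := c) (u := u) (N := N) n with ⟨h, -⟩ | ⟨t, ht, -, h, -⟩
  · exact h
  · have := hM t ht
    omega

lemma blk_approx {R τ η : ℝ} (hN : (N : ℝ) ≤ G)
    (hT : ∀ t ∈ T, ∀ t' ∈ T, t = t' ∨
      ((t.1 : ℝ) + G ≤ t'.1 ∧ (t.1 : ℝ) * c t + G ≤ (t'.1 : ℝ) * c t') ∨
      ((t'.1 : ℝ) + G ≤ t.1 ∧ (t'.1 : ℝ) * c t' + G ≤ (t.1 : ℝ) * c t))
    (hR : ∀ n, ‖u n‖ ≤ R) (hu : ∀ n, N ≤ n → u n = 0)
    (hτ : τ ≤ 1) (h1 : 2 * τ * R ≤ η) (h2 : Real.exp (τ - G) * R ≤ η)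
    {t : ℕ × P} (ht : t ∈ T) {lam : ℝ} (hlam : (t.1 : ℝ) * |lam - c t| ≤ τ) (n : ℕ) :
    ‖((Real.exp ((t.1 : ℝ) * lam) : ℝ) : 𝕜) * blk T c u N (n + t.1) - u n‖ ≤ η := by
  have hR0 : 0 ≤ R := (norm_nonneg _).trans (hR 0)
  have hη : 0 ≤ η := le_trans (by positivity) h2
  have habs : |(t.1 : ℝ) * lam - (t.1 : ℝ) * c t| ≤ τ := by
    rw [← mul_sub, abs_mul, Nat.abs_cast]; exact hlam
  rcases blk_cases (T := T) (c := c) (u := u) (N := N) (n + t.1) with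
    ⟨h, h'⟩ | ⟨s, hs, hs1, hs2, h⟩
  · have : N ≤ n := by
      by_contra hh
      exact h' t ht ⟨by omega, by omega⟩
    rw [h, hu n this]
    simpa using hη
  · rw [h]
    rcases hT t ht s hs with rfl | ⟨k1, k2⟩ | ⟨k1, k2⟩
    · rw [Nat.add_sub_cancel, ← mul_assoc, ← RCLike.ofReal_mul, ← Real.exp_add]
      have e : ((Real.exp ((t.1 : ℝ) * lam + -((t.1 : ℝ) * c t)) : ℝ) : 𝕜) * u n - u n =
          ((Real.exp ((t.1 : ℝ) * lam - (t.1 : ℝ) * c t) - 1 : ℝ) : 𝕜) * u n := by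
        rw [← sub_eq_add_neg]; push_cast; ring
      rw [e, norm_mul, RCLike.norm_ofReal]
      have := Real.abs_exp_sub_one_le (habs.trans hτ)
      calc |Real.exp ((t.1 : ℝ) * lam - (t.1 : ℝ) * c t) - 1| * ‖u n‖ ≤ (2 * τ) * R :=
            mul_le_mul (by linarith) (hR n) (norm_nonneg _)
              (by linarith [abs_nonneg ((t.1 : ℝ) * lam - (t.1 : ℝ) * c t)])
        _ ≤ η := h1
    · have k3 : t.1 + N ≤ s.1 := by
        have : (t.1 : ℝ) + N ≤ s.1 := by linarith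
        exact_mod_cast this
      rw [hu n (by omega), sub_zero, ← mul_assoc, ← RCLike.ofReal_mul, ← Real.exp_add,
        norm_exp_mul]
      refine le_trans (mul_le_mul (Real.exp_le_exp.2 ?_) (hR _) (norm_nonneg _)
        (Real.exp_pos _).le) h2
      linarith [(abs_le.1 habs).2]
    · exfalso
      have k3 : s.1 + N ≤ t.1 := by
        have : (s.1 : ℝ) + N ≤ t.1 := by linarith
        exact_mod_cast this
      omega

end

/-- an eventually vanishing sequence as an element of `c₀` -/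
noncomputable def mkC0 (x : ℕ → 𝕜) (M : ℕ) (hx : ∀ n, M ≤ n → x n = 0) : C₀(ℕ, 𝕜) :=
  ⟨⟨x, continuous_of_discreteTopology⟩, by
    rw [cocompact_eq_atTop]
    exact tendsto_const_nhds.congr' (eventually_atTop.2 ⟨M, fun n hn => (hx n hn).symm⟩)⟩

lemma mkC0_apply (x : ℕ → 𝕜) (M : ℕ) (hx : ∀ n, M ≤ n → x n = 0) (n : ℕ) :
    mkC0 x M hx n = x n := rfl

lemma dist_le {x y : Fin d → C₀(ℕ, 𝕜)} {r : ℝ} (hr : 0 ≤ r) (h : ∀ i n, ‖x i n - y i n‖ ≤ r) :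
    dist x y ≤ r := by
  refine (dist_pi_le_iff hr).2 fun i => ?_
  rw [← ZeroAtInftyContinuousMap.dist_toBCF_eq_dist, BoundedContinuousFunction.dist_le hr]
  intro n
  rw [dist_eq_norm]
  exact h i n

lemma norm_le (x y : Fin d → C₀(ℕ, 𝕜)) (i : Fin d) (n : ℕ) : ‖x i n - y i n‖ ≤ dist x y := by
  refine le_trans ?_ (dist_le_pi_dist x y i)
  rw [← ZeroAtInftyContinuousMap.dist_toBCF_eq_dist, ← dist_eq_norm]
  exact BoundedContinuousFunction.dist_coe_le_dist (f := (x i).toBCF) (g := (y i).toBCF) n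

lemma exists_tail (x : Fin d → C₀(ℕ, 𝕜)) {ρ : ℝ} (hρ : 0 < ρ) :
    ∃ N, ∀ n, N ≤ n → ∀ i, ‖x i n‖ ≤ ρ := by
  refine eventually_atTop.1 (eventually_all.2 fun i => ?_)
  have := zero_at_infty (x i)
  rw [cocompact_eq_atTop] at this
  exact this.norm.eventually (ge_mem_nhds (by simpa using hρ))

/-- vectors whose orbits come `η`-close to `u` for every parameter in `S` -/
def good (S : Set (Fin d → ℝ)) (u : Fin d → ℕ → 𝕜) (η : ℝ) : Set (Fin d → C₀(ℕ, 𝕜)) :=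
  {z | ∀ w ∈ S, ∃ k : ℕ, ∀ i n,
    ‖((Real.exp ((k : ℝ) * w i) : ℝ) : 𝕜) * z i (n + k) - u i n‖ ≤ η}

lemma perturb {k M : ℕ} {lam Λ η δ : ℝ} {x x' y : 𝕜} (hk : k ≤ M) (h0 : 0 ≤ Λ)
    (hlam : lam ≤ Λ) (hδ : Real.exp (M * Λ) * δ ≤ η / 2)
    (h1 : ‖((Real.exp ((k : ℝ) * lam) : ℝ) : 𝕜) * x - y‖ ≤ η / 2) (h2 : ‖x' - x‖ ≤ δ) :
    ‖((Real.exp ((k : ℝ) * lam) : ℝ) : 𝕜) * x' - y‖ ≤ η := by
  have e : ((Real.exp ((k : ℝ) * lam) : ℝ) : 𝕜) * x' - y =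
      (((Real.exp ((k : ℝ) * lam) : ℝ) : 𝕜) * x - y) +
        ((Real.exp ((k : ℝ) * lam) : ℝ) : 𝕜) * (x' - x) := by ring
  rw [e]
  refine (norm_add_le _ _).trans ?_
  rw [norm_exp_mul]
  have hkM : (k : ℝ) ≤ M := by exact_mod_cast hk
  have h3 : (k : ℝ) * lam ≤ M * Λ :=
    (mul_le_mul_of_nonneg_left hlam (Nat.cast_nonneg _)).trans
      (mul_le_mul_of_nonneg_right hkM h0)
  have h4 : Real.exp ((k : ℝ) * lam) * ‖x' - x‖ ≤ Real.exp (M * Λ) * δ :=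
    mul_le_mul (Real.exp_le_exp.2 h3) h2 (norm_nonneg _) (Real.exp_pos _).le
  linarith

lemma exists_exp_neg_le {R ρ : ℝ} (hR : 0 ≤ R) (hρ : 0 < ρ) :
    ∃ D : ℝ, ∀ D', D ≤ D' → Real.exp (-D') * R ≤ ρ := by
  refine ⟨R / ρ, fun D' hD => ?_⟩
  have h1 : D' + 1 ≤ Real.exp D' := Real.add_one_le_exp _
  rw [div_le_iff₀ hρ] at hD
  rw [Real.exp_neg, inv_mul_le_iff₀ (Real.exp_pos _)]
  nlinarith

theorem dense_good {S : Set (Fin d → ℝ)} {m Λ : ℝ} (hm0 : 0 < m) (hΛ0 : 0 ≤ Λ)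
    (hΛ : ∀ w ∈ S, ∀ i, w i ≤ Λ)
    (hcov : ∀ G τ n : ℝ, 0 ≤ G → 0 < τ → ∃ p e, (∀ i, m ≤ p i) ∧ Cov G τ S (n, p) e)
    {u : Fin d → ℕ → 𝕜} {N : ℕ} (hu : ∀ i n, N ≤ n → u i n = 0) {η : ℝ} (hη : 0 < η) :
    Dense (interior (good S u η)) := by
  classical
  obtain ⟨R, hR0, hRu⟩ : ∃ R : ℝ, 0 ≤ R ∧ ∀ i n, ‖u i n‖ ≤ R :=
    ⟨dist (fun i => mkC0 (u i) N (hu i)) 0, dist_nonneg, fun i n => by
      simpa [mkC0_apply] using norm_le (fun i => mkC0 (u i) N (hu i)) 0 i n⟩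
  set τ : ℝ := min 1 (η / (4 * (R + 1))) with hτ
  have hτ0 : 0 < τ := lt_min one_pos (by positivity)
  have hτ1 : τ ≤ 1 := min_le_left _ _
  have hτ2 : 2 * τ * R ≤ η / 2 := by
    have : τ ≤ η / (4 * (R + 1)) := min_le_right _ _
    rw [le_div_iff₀ (by positivity)] at this
    nlinarith
  obtain ⟨D, hD⟩ := exists_exp_neg_le hR0 (half_pos hη)
  set G : ℝ := max (N : ℝ) (D + τ) with hG
  have hGN : (N : ℝ) ≤ G := le_max_left _ _
  have hG0 : 0 ≤ G := (Nat.cast_nonneg _).trans hGN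
  have hG2 : Real.exp (τ - G) * R ≤ η / 2 := by
    have := hD (G - τ) (by linarith [le_max_right (N : ℝ) (D + τ)])
    rwa [neg_sub] at this
  rw [Metric.dense_iff]
  intro x0 ρ hρ
  obtain ⟨E, hE⟩ := exists_exp_neg_le hR0 (show 0 < ρ / 4 by positivity)
  obtain ⟨n0, hn0x, hn0E⟩ : ∃ n0 : ℕ, (∀ n, n0 ≤ n → ∀ i, ‖x0 i n‖ ≤ ρ / 4) ∧ E ≤ n0 * m := by
    obtain ⟨n1, h1⟩ := exists_tail x0 (show 0 < ρ / 4 by positivity)
    obtain ⟨n2, h2⟩ := exists_nat_ge (E / m)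
    refine ⟨max n1 n2, fun n hn => h1 n (le_trans (le_max_left _ _) hn), ?_⟩
    rw [div_le_iff₀ hm0] at h2
    have : (n2 : ℝ) ≤ ((max n1 n2 : ℕ) : ℝ) := by exact_mod_cast le_max_right _ _
    nlinarith
  obtain ⟨p, e, hp, -, T, hT, hTe, hTc⟩ := hcov G τ n0 hG0 hτ0
  obtain ⟨M, hM⟩ := exists_nat_ge e.1
  have hTM : ∀ t ∈ T, t.1 ≤ M := fun t ht => by
    have h1 := (hTe t ht).2.1
    simp only [st] at h1
    have : (t.1 : ℝ) ≤ M := by linarith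
    exact_mod_cast this
  have hT0 : ∀ t ∈ T, n0 ≤ t.1 := fun t ht => by
    have h1 := (hTe t ht).1.1
    simp only [st] at h1
    exact_mod_cast h1
  have hn0 : (0 : ℝ) ≤ n0 := Nat.cast_nonneg _
  have hT1 : ∀ i, ∀ t ∈ T, (n0 : ℝ) * m ≤ (t.1 : ℝ) * t.2 i := fun i t ht => by
    have h1 := (hTe t ht).1.2 i
    simp only [st] at h1
    exact (mul_le_mul_of_nonneg_left (hp i) hn0).trans h1
  set x : Fin d → ℕ → 𝕜 := fun i n => if n < n0 then x0 i n else blk T (fun t => t.2 i) (u i) N n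
    with hx
  have hxz : ∀ i n, n0 + (M + N) ≤ n → x i n = 0 := fun i n hn => by
    simp only [hx]
    rw [if_neg (by omega)]
    exact blk_eq_zero hTM (by omega)
  refine ⟨fun i => mkC0 (x i) _ (hxz i), ?_, ?_⟩
  · rw [Metric.mem_ball]
    refine lt_of_le_of_lt (dist_le (r := ρ / 2) (by positivity) fun i n => ?_) (by linarith)
    rw [mkC0_apply]
    simp only [hx]
    split_ifs with hn
    · simp; positivity
    · refine (norm_sub_le _ _).trans ?_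
      have h1 := blk_norm_le (N := N) (hRu i) (hT1 i) n
      have h2 := hE _ hn0E
      have h3 := hn0x n (by omega) i
      linarith
  · set δ : ℝ := η / 2 / Real.exp (M * Λ) with hδ
    have hδ0 : 0 < δ := by positivity
    have hδ1 : Real.exp (M * Λ) * δ ≤ η / 2 := by
      rw [hδ, mul_div_cancel₀ _ (Real.exp_pos _).ne']
    rw [mem_interior_iff_mem_nhds, Metric.mem_nhds_iff]
    refine ⟨δ, hδ0, ?_⟩
    intro x' hz w hw
    rw [Metric.mem_ball] at hz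
    obtain ⟨t, ht, hw1⟩ := hTc w hw
    refine ⟨t.1, fun i n => ?_⟩
    refine perturb (x := x i (n + t.1)) (hTM t ht) hΛ0 (hΛ w hw i) hδ1 ?_
      ((norm_le x' (fun i => mkC0 (x i) _ (hxz i)) i _).trans hz.le)
    have e : x i (n + t.1) = blk T (fun t => t.2 i) (u i) N (n + t.1) := by
      simp only [hx]
      rw [if_neg (by have := hT0 t ht; omega)]
    rw [e]
    refine blk_approx (T := T) (c := fun t => t.2 i) hGN (fun s hs s' hs' => ?_) (hRu i) (hu i) hτ1 hτ2 hG2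
      ht (hw1 i) n
    rcases hT s hs s' hs' with h | h | h
    · exact Or.inl h
    · exact Or.inr (Or.inl ⟨h.1, h.2 i⟩)
    · exact Or.inr (Or.inr ⟨h.1, h.2 i⟩)

variable (𝕜 d) in
/-- the countable dense family of finitely supported targets -/
noncomputable def target (N j : ℕ) (i : Fin d) (n : ℕ) : 𝕜 :=
  if h : n < N then TopologicalSpace.denseSeq (Fin d × Fin N → 𝕜) j (i, ⟨n, h⟩) else 0

lemma target_zero (N j : ℕ) (i : Fin d) (n : ℕ) (hn : N ≤ n) : target 𝕜 d N j i n = 0 := by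
  unfold target
  rw [dif_neg (by omega)]

lemma exists_target (u : Fin d → C₀(ℕ, 𝕜)) {η : ℝ} (hη : 0 < η) :
    ∃ N j, ∀ i n, ‖target 𝕜 d N j i n - u i n‖ ≤ η := by
  obtain ⟨N, hN⟩ := exists_tail u hη
  obtain ⟨j, hj⟩ := (TopologicalSpace.denseRange_denseSeq (Fin d × Fin N → 𝕜)).exists_dist_lt
    (fun a : Fin d × Fin N => u a.1 a.2) hη
  refine ⟨N, j, fun i n => ?_⟩
  unfold target
  split_ifs with h
  · rw [← dist_eq_norm, dist_comm]
    exact (dist_le_pi_dist (fun a : Fin d × Fin N => u a.1 a.2) _ (i, ⟨n, h⟩)).trans hj.le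
  · simpa using hN n (by omega) i

theorem common {S : Set (Fin d → ℝ)} {m Λ : ℝ} (hm0 : 0 < m) (hΛ0 : 0 ≤ Λ)
    (hΛ : ∀ w ∈ S, ∀ i, w i ≤ Λ)
    (hcov : ∀ G τ n : ℝ, 0 ≤ G → 0 < τ → ∃ p e, (∀ i, m ≤ p i) ∧ Cov G τ S (n, p) e) :
    ∀ᶠ x in residual (Fin d → C₀(ℕ, 𝕜)), ∀ w ∈ S, DenseRange fun n => (rol w)^[n] x := by
  have hd : ∀ᶠ x in residual (Fin d → C₀(ℕ, 𝕜)), ∀ p : ℕ × ℕ × ℕ,
      x ∈ interior (good S (target 𝕜 d p.1 p.2.1) (1 / ((p.2.2 : ℝ) + 1))) :=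
    eventually_countable_forall.2 fun p => residual_of_dense_open isOpen_interior
      (dense_good hm0 hΛ0 hΛ hcov (target_zero _ _) Nat.one_div_pos_of_nat)
  refine hd.mono fun x hx w hw => Metric.denseRange_iff.2 fun u η hη => ?_
  obtain ⟨N, j, hj⟩ := exists_target u (show 0 < η / 3 by positivity)
  obtain ⟨l, hl⟩ := exists_nat_one_div_lt (show 0 < η / 3 by positivity)
  obtain ⟨k, hk⟩ := interior_subset (hx (N, j, l)) w hw
  refine ⟨k, ?_⟩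
  rw [dist_comm]
  refine lt_of_le_of_lt (dist_le (r := 2 * η / 3) (by positivity) fun i n => ?_) (by linarith)
  rw [rol_iter]
  have h1 := hk i n
  have h2 := hj i n
  have h3 := norm_sub_le_norm_sub_add_norm_sub
    (((Real.exp ((k : ℝ) * w i) : ℝ) : 𝕜) * x i (n + k)) (target 𝕜 d N j i n) (u i n)
  simp only at h1
  linarith

end Pool.Agent.P.MP_1f345d_an.G
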