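import Pool.Agent.P.MP_1f345d_an.G.Defs
import Pool.Agent.P.MP_1f345d_an.Cover

/-! Covering a corner dust by a chain of small boxes whose times are separated. -/

set_option autoImplicit false
set_option linter.dupNamespace false
set_option linter.unusedVariables false
set_option linter.unusedSectionVars false
open Filter Topology Finset

namespace Pool.Agent.P.MP_1f345d_an.G

/-- the point of the linear Cantor set coded by `ε` -/
noncomputable def cs (l : ℕ → ℝ) (ε : ℕ → Bool) : ℝ :=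
  ∑' j : ℕ, if ε j then l j - l (j + 1) else 0

section cs

variable {l : ℕ → ℝ} (h0 : ∀ j, 0 ≤ l j) (h1 : ∀ j, l (j + 1) ≤ l j)
include h0 h1

lemma term_nonneg (ε : ℕ → Bool) (j : ℕ) : 0 ≤ (if ε j then l j - l (j + 1) else 0) := by
  split_ifs
  · linarith [h1 j]
  · exact le_rfl

lemma sum_term_le (ε : ℕ → Bool) (n : ℕ) :
    ∑ j ∈ range n, (if ε j then l j - l (j + 1) else 0) ≤ l 0 := by
  have : ∑ j ∈ range n, (if ε j then l j - l (j + 1) else 0) ≤ l 0 - l n := by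
    rw [← Finset.sum_range_sub']
    refine Finset.sum_le_sum fun j _ => ?_
    split_ifs
    · exact le_rfl
    · linarith [h1 j]
  linarith [h0 n]

lemma summable_term (ε : ℕ → Bool) :
    Summable fun j : ℕ => if ε j then l j - l (j + 1) else 0 :=
  summable_of_sum_range_le (term_nonneg h0 h1 ε) (sum_term_le h0 h1 ε)

lemma cs_nonneg (ε : ℕ → Bool) : 0 ≤ cs l ε := tsum_nonneg (term_nonneg h0 h1 ε)

lemma cs_le (ε : ℕ → Bool) : cs l ε ≤ l 0 :=
  Real.tsum_le_of_sum_range_le (term_nonneg h0 h1 ε) (sum_term_le h0 h1 ε)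

lemma cs_succ (ε : ℕ → Bool) :
    cs l ε = (if ε 0 then l 0 - l 1 else 0) + cs (fun j => l (j + 1)) (fun j => ε (j + 1)) := by
  unfold cs
  rw [(summable_term h0 h1 ε).tsum_eq_zero_add]

end cs

variable {d : ℕ}

/-- the lowest corner of a child -/
noncomputable def child (l : ℕ → ℝ) (k : ℕ) (p : Fin d → ℝ) (b : Fin d → Bool) : Fin d → ℝ :=
  fun i => p i + if b i then l k - l (k + 1) else 0

/-- the part of the dust in a cube of generation `k` -/
def cell (l : ℕ → ℝ) (k : ℕ) (p : Fin d → ℝ) : Set (Fin d → ℝ) := dust p fun j => l (j + k)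

lemma cell_subset {l : ℕ → ℝ} (h0 : ∀ j, 0 ≤ l j) (h1 : ∀ j, l (j + 1) ≤ l j) (k : ℕ)
    (p : Fin d → ℝ) :
    cell l k p ⊆ ⋃ b ∈ (univ : Finset (Fin d → Bool)), cell l (k + 1) (child l k p b) := by
  intro w hw
  choose ε hε using hw
  simp only [Set.mem_iUnion]
  refine ⟨fun i => ε i 0, mem_univ _, fun i => ⟨fun j => ε i (j + 1), ?_⟩⟩
  have h := cs_succ (l := fun j => l (j + k)) (fun j => h0 _)
    (fun j => by simpa [Nat.add_right_comm] using h1 (j + k)) (ε i)
  unfold cs at h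
  rw [hε i, h, child, add_assoc]
  simp only [zero_add, Nat.add_comm 1 k, Nat.add_right_comm _ 1 k, Nat.add_right_comm _ 1 (k + 1),
    ← Nat.add_assoc]

lemma cell_close {l : ℕ → ℝ} (h0 : ∀ j, 0 ≤ l j) (h1 : ∀ j, l (j + 1) ≤ l j) {k : ℕ}
    {p w : Fin d → ℝ} (hw : w ∈ cell l k p) (i : Fin d) : p i ≤ w i ∧ w i ≤ p i + l k := by
  obtain ⟨ε, hε⟩ := hw i
  have h0' : ∀ j, 0 ≤ (fun j => l (j + k)) j := fun j => h0 _
  have h1' : ∀ j, (fun j => l (j + k)) (j + 1) ≤ (fun j => l (j + k)) j :=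
    fun j => by simpa [Nat.add_right_comm] using h1 (j + k)
  have a1 := cs_nonneg h0' h1' ε
  have a2 := cs_le h0' h1' ε
  unfold cs at a1 a2
  simp only [zero_add] at a2
  constructor <;> linarith

/-- weak order between states -/
def Le (s t : ℝ × (Fin d → ℝ)) : Prop := s.1 ≤ t.1 ∧ ∀ i, s.1 * s.2 i ≤ t.1 * t.2 i

/-- strong order between states -/
def Lt (G : ℝ) (s t : ℝ × (Fin d → ℝ)) : Prop :=
  s.1 + G ≤ t.1 ∧ ∀ i, s.1 * s.2 i + G ≤ t.1 * t.2 i

lemma Le.refl (s : ℝ × (Fin d → ℝ)) : Le s s := ⟨le_rfl, fun _ => le_rfl⟩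

lemma Le.trans {s t u : ℝ × (Fin d → ℝ)} (h1 : Le s t) (h2 : Le t u) : Le s u :=
  ⟨h1.1.trans h2.1, fun i => (h1.2 i).trans (h2.2 i)⟩

lemma Lt.trans_le {G : ℝ} {s t u : ℝ × (Fin d → ℝ)} (h1 : Lt G s t) (h2 : Le t u) : Lt G s u :=
  ⟨h1.1.trans h2.1, fun i => (h1.2 i).trans (h2.2 i)⟩

/-- the state attached to a natural time and a point -/
def st (t : ℕ × (Fin d → ℝ)) : ℝ × (Fin d → ℝ) := ((t.1 : ℝ), t.2)

/-- `S` is covered by boxes of a chain that starts after `s` and ends before `e` -/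
def Cov (G τ : ℝ) (S : Set (Fin d → ℝ)) (s e : ℝ × (Fin d → ℝ)) : Prop :=
  Le s e ∧ ∃ T : Set (ℕ × (Fin d → ℝ)),
    (∀ t ∈ T, ∀ t' ∈ T, t = t' ∨ Lt G (st t) (st t') ∨ Lt G (st t') (st t)) ∧
    (∀ t ∈ T, Le s (st t) ∧ Lt G (st t) e) ∧
    ∀ z ∈ S, ∃ t ∈ T, ∀ i, (t.1 : ℝ) * |z i - t.2 i| ≤ τ

lemma Cov.mono {G τ : ℝ} {S S' : Set (Fin d → ℝ)} {s s' e e' : ℝ × (Fin d → ℝ)}
    (h : Cov G τ S s e) (hS : S' ⊆ S) (hs : Le s' s) (he : Le e e') : Cov G τ S' s' e' := by
  obtain ⟨h0, T, h1, h2, h3⟩ := h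
  exact ⟨(hs.trans h0).trans he, T, h1,
    fun t ht => ⟨hs.trans (h2 t ht).1, (h2 t ht).2.trans_le he⟩, fun z hz => h3 z (hS hz)⟩

lemma Cov.union {G τ : ℝ} {S S' : Set (Fin d → ℝ)} {s m e : ℝ × (Fin d → ℝ)}
    (h : Cov G τ S s m) (h' : Cov G τ S' m e) : Cov G τ (S ∪ S') s e := by
  obtain ⟨h0, T, h1, h2, h3⟩ := h
  obtain ⟨k0, T', k1, k2, k3⟩ := h'
  refine ⟨h0.trans k0, T ∪ T', ?_, ?_, ?_⟩
  · rintro t (ht | ht) t' (ht' | ht')
    · exact h1 t ht t' ht'
    · exact Or.inr (Or.inl ((h2 t ht).2.trans_le (k2 t' ht').1))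
    · exact Or.inr (Or.inr ((h2 t' ht').2.trans_le (k2 t ht).1))
    · exact k1 t ht t' ht'
  · rintro t (ht | ht)
    · exact ⟨(h2 t ht).1, (h2 t ht).2.trans_le k0⟩
    · exact ⟨h0.trans (k2 t ht).1, (k2 t ht).2⟩
  · rintro z (hz | hz)
    · obtain ⟨t, ht, h⟩ := h3 z hz
      exact ⟨t, Or.inl ht, h⟩
    · obtain ⟨t, ht, h⟩ := k3 z hz
      exact ⟨t, Or.inr ht, h⟩

lemma Cov.empty {G τ : ℝ} (s : ℝ × (Fin d → ℝ)) : Cov G τ ∅ s s :=
  ⟨Le.refl s, ∅, by simp, by simp, by simp⟩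

lemma le_time {n n' : ℝ} {p : Fin d → ℝ} (h : n ≤ n') (hp : ∀ i, 0 ≤ p i) : Le (n, p) (n', p) :=
  ⟨h, fun i => mul_le_mul_of_nonneg_right h (hp i)⟩

lemma le_up {n : ℝ} {p p' : Fin d → ℝ} (hn : 0 ≤ n) (hp : ∀ i, p i ≤ p' i) : Le (n, p) (n, p') :=
  ⟨le_rfl, fun i => mul_le_mul_of_nonneg_left (hp i) hn⟩

lemma le_move {a s r : ℝ} {p p' : Fin d → ℝ} (ha : 0 < a) (hp' : ∀ i, a ≤ p' i) (hr : 0 ≤ r)
    (h : ∀ i, |p i - p' i| ≤ r) : Le (Real.exp s, p) (Real.exp (s + r / a), p') := by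
  refine ⟨Real.exp_le_exp.2 (by have : 0 ≤ r / a := by positivity
                                linarith), fun i => ?_⟩
  rw [Real.exp_add]
  exact mul_move ha (Real.exp_pos s).le (hp' i) hr (h i)

/-- one box covers a small set -/
lemma Cov.base {G τ a r n : ℝ} (hG : 0 ≤ G) (ha : 0 < a) (hn : 1 ≤ n) (hτ : 2 * n * r ≤ τ)
    {S : Set (Fin d → ℝ)} {p : Fin d → ℝ} (hp : ∀ i, a ≤ p i)
    (hS : ∀ z ∈ S, ∀ i, |z i - p i| ≤ r) : Cov G τ S (n, p) (n + (1 + G + G / a), p) := by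
  have hp0 : ∀ i, 0 ≤ p i := fun i => ha.le.trans (hp i)
  have hGa : 0 ≤ G / a := by positivity
  have c1 : n ≤ (⌈n⌉₊ : ℝ) := Nat.le_ceil n
  have c2 : (⌈n⌉₊ : ℝ) < n + 1 := Nat.ceil_lt_add_one (by linarith)
  have key : ∀ x : ℝ, a ≤ x → (⌈n⌉₊ : ℝ) * x + G ≤ (n + (1 + G + G / a)) * x := by
    intro x hx
    have h3 : G ≤ G / a * x := by
      rw [div_mul_eq_mul_div, le_div_iff₀ ha]
      exact mul_le_mul_of_nonneg_left hx hG
    have hx0 : 0 ≤ x := by linarith
    have h4 : (⌈n⌉₊ : ℝ) * x ≤ (n + 1) * x := mul_le_mul_of_nonneg_right c2.le hx0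
    have h5 : 0 ≤ G * x := by positivity
    nlinarith
  refine ⟨le_time (by linarith) hp0, {(⌈n⌉₊, p)}, ?_, ?_, ?_⟩
  · rintro t rfl t' rfl
    exact Or.inl rfl
  · rintro t rfl
    refine ⟨le_time c1 hp0, ?_, fun i => key _ (hp i)⟩
    simp only [st]
    linarith
  · intro z hz
    refine ⟨_, rfl, fun i => ?_⟩
    calc (⌈n⌉₊ : ℝ) * |z i - p i| ≤ (2 * n) * r :=
          mul_le_mul (by linarith) (hS z hz i) (abs_nonneg _) (by linarith)
      _ ≤ τ := hτ

/-- the clock in which the sweep of the dust has bounded length -/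
lemma exists_clock {t U : ℕ → ℝ} (ht : Monotone t) (ht' : ∀ s, ∃ j, s < t (j + 1))
    (hU : Monotone U) (hU0 : ∀ j, 0 < U j) (hs : ¬ Summable fun j => (t (j + 1) - t j) / U j) :
    ∃ Ψ W : ℝ → ℝ, Monotone W ∧ (∀ k s, t k ≤ s → U k ≤ W s) ∧
      (∀ s s', t 0 ≤ s → s ≤ s' → Ψ s' - Ψ s ≤ (s' - s) / W s) ∧
      ∀ B, ∃ K, ∀ s, t 0 ≤ s → Ψ s ≤ B → s < t K := by
  classical
  set ix : ℝ → ℕ := fun s => Nat.find (ht' s) with hix
  have i1 : ∀ s, s < t (ix s + 1) := fun s => Nat.find_spec (ht' s)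
  have i2 : ∀ k s, t k ≤ s → k ≤ ix s := fun k s h => by
    by_contra hh
    have := ht (show ix s + 1 ≤ k by omega)
    linarith [i1 s]
  have i3 : ∀ s, t 0 ≤ s → t (ix s) ≤ s := fun s h => by
    rcases Nat.eq_zero_or_pos (ix s) with h0 | h0
    · rwa [h0]
    · have := Nat.find_min (ht' s) (show ix s - 1 < ix s by omega)
      rw [show ix s - 1 + 1 = ix s by omega] at this
      exact not_lt.1 this
  have i4 : Monotone ix := fun s s' h => Nat.find_min' (ht' s) (h.trans_lt (i1 s'))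
  set S : ℕ → ℝ := fun j => ∑ i ∈ range j, (t (i + 1) - t i) / U i with hS
  have hnn : ∀ j, 0 ≤ (t (j + 1) - t j) / U j := fun j =>
    div_nonneg (sub_nonneg.2 (ht (Nat.le_succ j))) (hU0 j).le
  have s1 : ∀ j j', j ≤ j' → S j' - S j ≤ (t j' - t j) / U j := by
    intro j j' h
    induction j', h using Nat.le_induction with
    | base => simp
    | succ n hn ih =>
      have e : S (n + 1) = S n + (t (n + 1) - t n) / U n := Finset.sum_range_succ _ _
      have e2 : (t (n + 1) - t n) / U n ≤ (t (n + 1) - t n) / U j :=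
        div_le_div_of_nonneg_left (sub_nonneg.2 (ht (Nat.le_succ n))) (hU0 j) (hU hn)
      have e3 : (t (n + 1) - t j) / U j = (t n - t j) / U j + (t (n + 1) - t n) / U j := by ring
      linarith
  have s2 : Monotone S := monotone_nat_of_le_succ fun n => by
    have e : S (n + 1) = S n + (t (n + 1) - t n) / U n := Finset.sum_range_succ _ _
    linarith [hnn n]
  refine ⟨fun s => S (ix s) + (s - t (ix s)) / U (ix s), fun s => U (ix s), hU.comp i4,
    fun k s h => hU (i2 k s h), fun s s' h h' => ?_, fun B => ?_⟩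
  · have a1 := s1 _ _ (i4 h')
    have a2 : (s' - t (ix s')) / U (ix s') ≤ (s' - t (ix s')) / U (ix s) :=
      div_le_div_of_nonneg_left (sub_nonneg.2 (i3 s' (h.trans h'))) (hU0 _) (hU (i4 h'))
    have a3 : (s' - s) / U (ix s) = (t (ix s') - t (ix s)) / U (ix s) +
        (s' - t (ix s')) / U (ix s) - (s - t (ix s)) / U (ix s) := by ring
    simp only
    linarith
  · have := (not_summable_iff_tendsto_nat_atTop_of_nonneg hnn).1 hs
    obtain ⟨K, hK⟩ := (this.eventually (eventually_gt_atTop B)).exists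
    refine ⟨K, fun s h hB => ?_⟩
    by_contra hh
    have a1 := s2 (i2 K s (not_lt.1 hh))
    have a2 : 0 ≤ (s - t (ix s)) / U (ix s) := div_nonneg (sub_nonneg.2 (i3 s h)) (hU0 _).le
    have a3 : B < S K := hK
    simp only at hB
    linarith

/-- the weights of the generations -/
noncomputable def wt (d : ℕ) (l : ℕ → ℝ) (k : ℕ) : ℝ := ∑ j ∈ range k, (2 ^ d : ℝ) ^ j * l j

section sweep

variable {G τ a C B : ℝ} {l t : ℕ → ℝ} {Ψ W : ℝ → ℝ}

/-- a visit of one child of a cube of generation `k` -/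
def Vis (d : ℕ) (G τ a C B : ℝ) (l t : ℕ → ℝ) (Ψ W : ℝ → ℝ) (k : ℕ) : Prop :=
  ∀ (p : Fin d → ℝ) (b : Fin d → Bool) (s : ℝ), (∀ i, a ≤ p i) → 0 ≤ s → t k ≤ s →
    Ψ s + C / (2 ^ d : ℝ) ^ k ≤ B →
    ∃ s', s ≤ s' ∧ Cov G τ (cell l (k + 1) (child l k p b)) (Real.exp s, p) (Real.exp s', p) ∧
      Ψ s' - Ψ s ≤ C / (2 ^ d : ℝ) ^ k * (1 - wt d l k / W s')

lemma wt_nonneg (hl : ∀ j, 0 < l j) (k : ℕ) : 0 ≤ wt d l k :=
  sum_nonneg fun j _ => by have := hl j; positivity

lemma wt_succ (k : ℕ) : wt d l (k + 1) = wt d l k + (2 ^ d : ℝ) ^ k * l k := sum_range_succ _ _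

lemma wt_pos (hl : ∀ j, 0 < l j) (k : ℕ) : 0 < wt d l (k + 1) := by
  have := wt_nonneg (d := d) hl k
  have := hl k
  rw [wt_succ]
  positivity

lemma Vis.all (hl : ∀ j, 0 < l j) (hC : 0 ≤ C) (hW : Monotone W) (hW0 : ∀ s, 0 < W s) {k : ℕ}
    (h : Vis d G τ a C B l t Ψ W k) (p : Fin d → ℝ) (hp : ∀ i, a ≤ p i)
    (F : Finset (Fin d → Bool)) (s : ℝ) (hs : 0 ≤ s) (hts : t k ≤ s)
    (hB : Ψ s + F.card * (C / (2 ^ d : ℝ) ^ k) ≤ B) :
    ∃ s', s ≤ s' ∧
      Cov G τ (⋃ b ∈ F, cell l (k + 1) (child l k p b)) (Real.exp s, p) (Real.exp s', p) ∧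
      Ψ s' - Ψ s ≤ F.card * (C / (2 ^ d : ℝ) ^ k) * (1 - wt d l k / W s') := by
  classical
  have hc : 0 ≤ C / (2 ^ d : ℝ) ^ k := by positivity
  have hw := wt_nonneg (d := d) hl k
  set c := C / (2 ^ d : ℝ) ^ k with hcd
  induction F using Finset.induction_on with
  | empty => exact ⟨s, le_rfl, by simpa using Cov.empty _, by simp⟩
  | insert b F hb ih =>
    rw [card_insert_of_notMem hb] at hB ⊢
    push_cast at hB ⊢
    obtain ⟨s1, a1, a2, a3⟩ := ih (by linarith)
    have hF : 0 ≤ (F.card : ℝ) * c := by positivity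
    have a4 : 0 ≤ wt d l k / W s1 := div_nonneg hw (hW0 _).le
    obtain ⟨s2, b1, b2, b3⟩ := h p b s1 hp (hs.trans a1) (hts.trans a1) (by nlinarith)
    refine ⟨s2, a1.trans b1, (a2.union b2).mono ?_ (Le.refl _) (Le.refl _), ?_⟩
    · rw [Finset.set_biUnion_insert, Set.union_comm]
    · have a5 : wt d l k / W s2 ≤ wt d l k / W s1 := div_le_div_of_nonneg_left hw (hW0 _) (hW b1)
      nlinarith

lemma vis (hG : 0 ≤ G) (ha : 0 < a) (hτ : 0 < τ) (hl : ∀ j, 0 < l j) (hl' : ∀ j, l (j + 1) ≤ l j)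
    (ht : ∀ k, Real.exp (t k) = τ / (2 * l k)) (htm : Monotone t)
    (hC : C = 2 * (1 + G + G / a) / τ + 1 / a) (hW : Monotone W) (hW0 : ∀ s, 0 < W s)
    (hVW : ∀ k s, t k ≤ s → wt d l (k + 1) ≤ W s)
    (hΨ : ∀ s s', t 0 ≤ s → s ≤ s' → Ψ s' - Ψ s ≤ (s' - s) / W s)
    {K : ℕ} (hK : ∀ s, t 0 ≤ s → Ψ s ≤ B → s < t K) (m : ℕ) :
    ∀ k, K ≤ k + m → Vis d G τ a C B l t Ψ W k := by
  have hC0 : 0 ≤ C := by rw [hC]; positivity
  have hl0 : ∀ j, 0 ≤ l j := fun j => (hl j).le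
  induction m with
  | zero =>
    intro k hk p b s hp hs hts hB
    have h1 : 0 ≤ C / (2 ^ d : ℝ) ^ k := by positivity
    have := hK s ((htm (Nat.zero_le k)).trans hts) (by linarith)
    have := htm (show K ≤ k by omega)
    linarith
  | succ m ih =>
    intro k hk p b s hp hs hts hB
    have hM : (0 : ℝ) < (2 ^ d : ℝ) ^ k := by positivity
    set K0 : ℝ := 1 + G + G / a with hK0
    have hK00 : 0 ≤ K0 := by positivity
    set p' := child l k p b with hp'
    have q1 : ∀ i, p i ≤ p' i ∧ p' i ≤ p i + l k := fun i => by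
      simp only [hp', child]
      have := hl' k
      have := hl0 (k + 1)
      split_ifs <;> constructor <;> linarith
    have q2 : ∀ i, a ≤ p' i := fun i => (hp i).trans (q1 i).1
    have q3 : ∀ i, 0 ≤ p' i := fun i => ha.le.trans (q2 i)
    have hlk := hl k
    have hx : 0 ≤ 2 * K0 / τ * l k := by positivity
    obtain ⟨s1, a1, a2, a3⟩ : ∃ s1, s ≤ s1 ∧ Cov G τ (cell l (k + 1) p') (Real.exp s, p')
        (Real.exp (s1 + 2 * K0 / τ * l k), p') ∧
        Ψ s1 - Ψ s ≤ C / (2 ^ d : ℝ) ^ k * (1 - wt d l (k + 1) / W s1) := by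
      rcases lt_or_ge s (t (k + 1)) with h | h
      · refine ⟨s, le_rfl, ?_, ?_⟩
        · have e1 : Real.exp s ≤ τ / (2 * l (k + 1)) := ht (k + 1) ▸ Real.exp_le_exp.2 h.le
          rw [le_div_iff₀ (by have := hl (k + 1); positivity)] at e1
          have c := Cov.base (τ := τ) (r := l (k + 1)) (S := cell l (k + 1) p') hG ha
            (Real.one_le_exp hs) (by linarith) q2 (fun z hz i => by
              have := cell_close hl0 hl' hz i
              have := hl0 (k + 1)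
              rw [abs_le]
              constructor <;> linarith)
          refine c.mono subset_rfl (Le.refl _) (le_time ?_ q3)
          have e2 : τ / (2 * l k) ≤ Real.exp s := ht k ▸ Real.exp_le_exp.2 hts
          rw [div_le_iff₀ (by positivity)] at e2
          have e3 := Real.add_one_le_exp (2 * K0 / τ * l k)
          have e4 : K0 ≤ Real.exp s * (2 * K0 / τ * l k) := by
            have : Real.exp s * (2 * K0 / τ * l k) = K0 * (Real.exp s * (2 * l k)) / τ := by ring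
            rw [this, le_div_iff₀ hτ]
            exact mul_le_mul_of_nonneg_left e2 hK00
          have e5 := mul_le_mul_of_nonneg_left e3 (Real.exp_pos s).le
          rw [Real.exp_add]
          linarith
        · rw [sub_self]
          have := (div_le_one (hW0 s)).2 (hVW k s hts)
          exact mul_nonneg (by positivity) (by linarith)
      · have e1 : ((univ : Finset (Fin d → Bool)).card : ℝ) * (C / (2 ^ d : ℝ) ^ (k + 1)) =
            C / (2 ^ d : ℝ) ^ k := by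
          simp only [card_univ, Fintype.card_fun, Fintype.card_bool, Fintype.card_fin]
          push_cast
          field_simp
          ring
        obtain ⟨s1, a1, a2, a3⟩ := (ih (k + 1) (by omega)).all hl hC0 hW hW0 p' q2 univ s hs h
          (by rw [e1]; exact hB)
        rw [e1] at a3
        exact ⟨s1, a1, a2.mono (cell_subset hl0 hl' _ _) (Le.refl _)
          (le_time (Real.exp_le_exp.2 (by linarith)) q3), a3⟩
    have e1 : s1 + 2 * K0 / τ * l k + l k / a = s1 + C * l k := by rw [hC]; ring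
    have hCl : 0 ≤ C * l k := by positivity
    refine ⟨s1 + C * l k, by linarith, a2.mono subset_rfl
      (le_up (Real.exp_pos _).le fun i => (q1 i).1) ?_, ?_⟩
    · rw [← e1]
      refine le_move ha hp hlk.le fun i => ?_
      have := q1 i
      rw [abs_le]
      constructor <;> linarith
    · have b1 := hΨ s1 (s1 + C * l k) (((htm (Nat.zero_le k)).trans hts).trans a1) (by linarith)
      have b2 : wt d l k / W (s1 + C * l k) ≤ wt d l k / W s1 :=
        div_le_div_of_nonneg_left (wt_nonneg hl k) (hW0 _) (hW (by linarith))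
      have b3 : C / (2 ^ d : ℝ) ^ k * (1 - wt d l (k + 1) / W s1) + (s1 + C * l k - s1) / W s1 =
          C / (2 ^ d : ℝ) ^ k * (1 - wt d l k / W s1) := by
        rw [wt_succ]
        have := (hW0 s1).ne'
        field_simp
        ring
      have b4 : C / (2 ^ d : ℝ) ^ k * (1 - wt d l k / W s1) ≤
          C / (2 ^ d : ℝ) ^ k * (1 - wt d l k / W (s1 + C * l k)) :=
        mul_le_mul_of_nonneg_left (by linarith) (by positivity)
      linarith

end sweep

/-- The covering lemma. -/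
theorem exists_cov {G τ a : ℝ} (hG : 0 ≤ G) (hτ : 0 < τ) (ha : 0 < a) {l : ℕ → ℝ}
    (hl : ∀ j, 0 < l j) (hl' : ∀ j, l (j + 1) ≤ l j) (hl0 : Tendsto l atTop (𝓝 0))
    (hs : ¬ Summable fun j => Real.log (l j / l (j + 1)) / wt d l (j + 1))
    (p : Fin d → ℝ) (hp : ∀ i, a ≤ p i) (n : ℝ) :
    ∃ n' : ℝ, Cov G τ (dust p l) (n, p) (n', p) := by
  set t : ℕ → ℝ := fun k => Real.log (τ / (2 * l k)) with htd
  have ht : ∀ k, Real.exp (t k) = τ / (2 * l k) := fun k =>
    Real.exp_log (by have := hl k; positivity)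
  have htm : Monotone t := monotone_nat_of_le_succ fun k => by
    have := hl (k + 1)
    have := hl' k
    have := hl k
    exact Real.log_le_log (by positivity) (by gcongr)
  have ht' : ∀ s, ∃ j, s < t (j + 1) := fun s => by
    have := (hl0.comp (tendsto_add_atTop_nat 1)).eventually
      (gt_mem_nhds (show 0 < τ / (2 * Real.exp s) by positivity))
    obtain ⟨j, hj⟩ := this.exists
    refine ⟨j, Real.exp_lt_exp.1 ?_⟩
    have h1 : l (j + 1) < τ / (2 * Real.exp s) := hj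
    have := hl (j + 1)
    rw [lt_div_iff₀ (by positivity)] at h1
    rw [ht, lt_div_iff₀ (by positivity)]
    linarith
  have hU : Monotone fun j => wt d l (j + 1) := monotone_nat_of_le_succ fun k => by
    have := hl (k + 1)
    rw [wt_succ (k + 1)]
    exact le_add_of_nonneg_right (by positivity)
  obtain ⟨Ψ, W, hW, hVW, hΨ, hB⟩ := exists_clock htm ht' hU (wt_pos hl) (by
    convert hs using 4 with j
    have := hl j
    have := hl (j + 1)
    rw [htd, ← Real.log_div (by positivity) (by positivity)]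
    congr 1
    field_simp)
  set W' : ℝ → ℝ := fun s => max (W s) (W (t 0)) with hW'
  have hW0 : ∀ s, 0 < W' s := fun s =>
    lt_max_of_lt_right ((wt_pos hl 0).trans_le (hVW 0 _ le_rfl))
  have hWm : Monotone W' := hW.max monotone_const
  set C : ℝ := 2 * (1 + G + G / a) / τ + 1 / a with hC
  set s : ℝ := max (max 0 (t 0)) n with hsd
  obtain ⟨K, hK⟩ := hB (Ψ s + ((univ : Finset (Fin d → Bool)).card : ℝ) * (C / (2 ^ d : ℝ) ^ 0))
  have hv := vis (d := d) (W := W') hG ha hτ hl hl' ht htm hC hWm hW0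
    (fun k s h => le_max_of_le_left (hVW k s h))
    (fun s s' h h' => by rw [hW']; simp only; rw [max_eq_left (hW h)]; exact hΨ s s' h h') hK K 0
    (by omega)
  obtain ⟨s', -, h, -⟩ := hv.all hl (by positivity) hWm hW0 p hp univ s
    (le_max_of_le_left (le_max_left _ _)) (le_max_of_le_left (le_max_right _ _)) le_rfl
  refine ⟨_, h.mono (cell_subset (fun j => (hl j).le) hl' 0 p)
    (le_time ?_ fun i => ha.le.trans (hp i)) (Le.refl _)⟩
  have := Real.add_one_le_exp s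
  have : n ≤ s := le_max_right _ _
  linarith

end Pool.Agent.P.MP_1f345d_an.G
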