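import Mathlib

/-! Products of Rolewicz operators and corner dusts with variable ratios: definitions. -/

set_option autoImplicit false
set_option linter.dupNamespace false
open Filter Topology
open scoped ZeroAtInfty

namespace Pool.Agent.P.MP_1f345d_an.G

/-- The backward shift on `c₀`: `(shift x) n = x (n + 1)`. -/
noncomputable def shift {𝕜 : Type} [RCLike 𝕜] (x : C₀(ℕ, 𝕜)) : C₀(ℕ, 𝕜) :=
  ⟨⟨fun n => x (n + 1), continuous_of_discreteTopology⟩, by
    have h := zero_at_infty x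
    rw [cocompact_eq_atTop] at h ⊢
    exact h.comp (tendsto_add_atTop_nat 1)⟩

/-- The product `e^{w 1} B × ⋯ × e^{w d} B` of Rolewicz operators on `c₀^d`. -/
noncomputable def rol {𝕜 : Type} [RCLike 𝕜] {d : ℕ} (w : Fin d → ℝ) (x : Fin d → C₀(ℕ, 𝕜)) :
    Fin d → C₀(ℕ, 𝕜) :=
  fun i => ((Real.exp (w i) : ℝ) : 𝕜) • shift (x i)

/-- The corner dust in the cube with lowest corner `a` whose cubes of generation `j` have side
`l j`. -/
def dust {d : ℕ} (a : Fin d → ℝ) (l : ℕ → ℝ) : Set (Fin d → ℝ) :=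
  {w | ∀ i, ∃ ε : ℕ → Bool, w i = a i + ∑' j : ℕ, if ε j then l j - l (j + 1) else 0}

end Pool.Agent.P.MP_1f345d_an.G
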