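import Pool.Agent.P.MP_1f345d_an.G.Baire

/-! No common hypercyclic vector when the series converges. -/

set_option autoImplicit false
set_option linter.dupNamespace false
set_option linter.unusedVariables false
set_option linter.unusedSectionVars false
open Filter Topology Finset MeasureTheory
open scoped ZeroAtInfty

namespace Pool.Agent.P.MP_1f345d_an.G

variable {d : ℕ}

/-- the point of the dust with code `ε` -/
noncomputable def pt (a : Fin d → ℝ) (l : ℕ → ℝ) (ε : ℕ → Fin d → Bool) : Fin d → ℝ :=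
  fun i => a i + cs l fun j => ε j i

/-- the first `j` digits of a code -/
def pre (j : ℕ) (ε : ℕ → Fin d → Bool) : Fin j → Fin d → Bool := fun m => ε m

/-- the uniform measure on codes -/
noncomputable def mu (d : ℕ) : Measure (ℕ → Fin d → Bool) :=
  Measure.infinitePi fun _ : ℕ => (PMF.uniformOfFintype (Fin d → Bool)).toMeasure

instance : IsProbabilityMeasure (mu d) := by unfold mu; infer_instance

lemma mu_cyl (j : ℕ) (v : Fin j → Fin d → Bool) :
    (mu d).real {ε | pre j ε = v} = ((2 ^ d : ℝ) ^ j)⁻¹ := by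
  classical
  have e : {ε | pre j ε = v} = Set.pi (range j : Finset ℕ)
      fun m => {if h : m < j then v ⟨m, h⟩ else fun _ => false} := by
    ext ε
    simp only [Set.mem_ofPred_eq, Set.mem_pi, coe_range, Set.mem_Iio, Set.mem_singleton_iff]
    constructor
    · rintro rfl m hm
      rw [dif_pos hm]
      rfl
    · intro h
      funext m
      have := h m m.2
      rwa [dif_pos m.2] at this
  rw [e, Measure.real, mu, Measure.infinitePi_pi _ fun _ _ => measurableSet_singleton _]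
  simp [PMF.toMeasure_apply_singleton _ _ (measurableSet_singleton _)]

section

variable {l : ℕ → ℝ} {θ : ℝ} (hl : ∀ j, 0 < l j) (hθ : θ < 1 / 2) (hr : ∀ j, l (j + 1) ≤ θ * l j)
include hl hθ hr

lemma half (j : ℕ) : l (j + 1) ≤ l j / 2 := by nlinarith [hl j, hr j]

lemma dec (j : ℕ) : l (j + 1) ≤ l j := by linarith [half hl hθ hr j, hl j]

lemma sum_Ico_le {m n : ℕ} (h : m ≤ n) : ∑ j ∈ Ico m n, l j ≤ 2 * l m - 2 * l n := by
  induction n, h using Nat.le_induction with
  | base => simp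
  | succ n hn ih =>
    rw [sum_Ico_succ_top hn]
    linarith [half hl hθ hr n]

omit hθ hr in
lemma cs_sep (h1 : ∀ j, l (j + 1) ≤ l j) (m : ℕ) {ε ε' : ℕ → Bool} (h : ∀ j < m, ε j = ε' j)
    (h0 : ε m = true) (h0' : ε' m = false) : l m - 2 * l (m + 1) ≤ cs l ε - cs l ε' := by
  induction m generalizing l ε ε' with
  | zero =>
    have b0 : ∀ j, 0 ≤ l j := fun j => (hl j).le
    rw [cs_succ b0 h1 ε, cs_succ b0 h1 ε', h0, h0']
    have a1 := cs_nonneg (l := fun j => l (j + 1)) (fun j => b0 _) (fun j => h1 _)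
      fun j => ε (j + 1)
    have a2 := cs_le (l := fun j => l (j + 1)) (fun j => b0 _) (fun j => h1 _)
      fun j => ε' (j + 1)
    simp only [zero_add, if_true, Bool.false_eq_true, if_false] at a2 ⊢
    linarith
  | succ m ih =>
    have b0 : ∀ j, 0 ≤ l j := fun j => (hl j).le
    rw [cs_succ b0 h1 ε, cs_succ b0 h1 ε', h 0 (Nat.succ_pos m)]
    have := ih (l := fun j => l (j + 1)) (fun j => hl _) (fun j => h1 _)
      (ε := fun j => ε (j + 1)) (ε' := fun j => ε' (j + 1))
      (fun j hj => h (j + 1) (by omega)) h0 h0'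
    linarith

lemma pt_sep (a : Fin d → ℝ) {ε ε' : ℕ → Fin d → Bool} (h : ε ≠ ε') :
    ∃ m, (∀ j, j ≤ m → pre j ε = pre j ε') ∧ (∀ j, m < j → pre j ε ≠ pre j ε') ∧
      ∃ i, (1 - 2 * θ) * l m ≤ |pt a l ε i - pt a l ε' i| := by
  classical
  have h1 : ∃ m, ε m ≠ ε' m := Function.ne_iff.1 h
  refine ⟨Nat.find h1, fun j hj => funext fun m => ?_, fun j hj e => ?_, ?_⟩
  · exact not_not.1 (Nat.find_min h1 (m.2.trans_le hj))
  · exact Nat.find_spec h1 (congrFun e ⟨_, hj⟩)
  obtain ⟨i, hi⟩ := Function.ne_iff.1 (Nat.find_spec h1)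
  have h2 : ∀ j < Nat.find h1, ε j i = ε' j i := fun j hj =>
    congrFun (not_not.1 (Nat.find_min h1 hj)) i
  have h3 := hr (Nat.find h1)
  refine ⟨i, ?_⟩
  simp only [pt, add_sub_add_left_eq_sub]
  cases e : ε (Nat.find h1) i <;> cases e' : ε' (Nat.find h1) i
  · exact absurd (e.trans e'.symm) hi
  · have := cs_sep hl (dec hl hθ hr) _ (ε := fun j => ε' j i) (ε' := fun j => ε j i)
      (fun j hj => (h2 j hj).symm) e' e
    rw [abs_sub_comm]
    exact le_abs.2 (Or.inl (by linarith))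
  · have := cs_sep hl (dec hl hθ hr) _ (ε := fun j => ε j i) (ε' := fun j => ε' j i) h2 e e'
    exact le_abs.2 (Or.inl (by linarith))
  · exact absurd (e.trans e'.symm) hi

open Classical in
lemma sum_ne_le (a : Fin d → ℝ) (ε ε' : ℕ → Fin d → Bool) (n : ℕ) :
    (1 - 2 * θ) * ∑ j ∈ range n, (if pre (j + 1) ε = pre (j + 1) ε' then 0 else l j) ≤
      2 * ∑ i, |pt a l ε i - pt a l ε' i| := by
  by_cases h : ε = ε'
  · simp [h]
  obtain ⟨m, h1, -, i, hi⟩ := pt_sep hl hθ hr a h
  have h2 : ∑ j ∈ range n, (if pre (j + 1) ε = pre (j + 1) ε' then 0 else l j) ≤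
      ∑ j ∈ Ico m (m + n), l j := by
    rw [← sum_filter_add_sum_filter_not _ (fun j => pre (j + 1) ε = pre (j + 1) ε'),
      sum_congr rfl fun j hj => if_pos (mem_filter.1 hj).2, sum_const_zero, zero_add,
      sum_congr rfl fun j hj => if_neg (mem_filter.1 hj).2]
    refine sum_le_sum_of_subset_of_nonneg (fun j hj => ?_) fun j _ _ => (hl j).le
    obtain ⟨b1, b2⟩ := mem_filter.1 hj
    have := mem_range.1 b1
    have : ¬ j + 1 ≤ m := fun b => b2 (h1 _ b)
    exact mem_Ico.2 ⟨by omega, by omega⟩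
  have h3 := sum_Ico_le hl hθ hr (Nat.le_add_right m n)
  have h4 := single_le_sum (f := fun i => |pt a l ε i - pt a l ε' i|) (fun _ _ => abs_nonneg _)
    (mem_univ i)
  have h5 := mul_le_mul_of_nonneg_left (h2.trans (h3.trans (sub_le_self _
    (by linarith [hl (m + n)])))) (show 0 ≤ 1 - 2 * θ by linarith)
  linarith

omit hl hθ hr in
lemma abs_step {k k' y y' Λ : ℝ} (hk : 0 < k) (hk' : k ≤ k') (hy : 0 ≤ y) (hΛ : y ≤ Λ)
    (h : k * y ≤ k' * y') : |y' - y| ≤ 2 * Λ * (Real.log k' - Real.log k) + (y' - y) := by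
  have h0 : 0 < k' := hk.trans_le hk'
  have h1 := Real.one_sub_inv_le_log_of_pos (div_pos h0 hk)
  rw [Real.log_div h0.ne' hk.ne', inv_div] at h1
  have h2 : 0 ≤ Real.log k' - Real.log k := sub_nonneg.2 (Real.log_le_log hk hk')
  have h3 : k / k' * y ≤ y' := by
    rw [div_mul_eq_mul_div, div_le_iff₀ h0]
    linarith
  have h4 := mul_le_mul_of_nonneg_left h1 hy
  have h5 := mul_le_mul_of_nonneg_right hΛ h2
  have h6 : 0 ≤ y * (Real.log k' - Real.log k) := mul_nonneg hy h2
  rw [abs_le]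
  constructor <;> nlinarith

lemma pt_mem (a : Fin d → ℝ) (ε : ℕ → Fin d → Bool) (i : Fin d) :
    a i ≤ pt a l ε i ∧ pt a l ε i ≤ a i + l 0 := by
  have a1 := cs_nonneg (fun j => (hl j).le) (dec hl hθ hr) fun j => ε j i
  have a2 := cs_le (fun j => (hl j).le) (dec hl hθ hr) fun j => ε j i
  simp only [pt]
  constructor <;> linarith

/-- the length of a path controls the number of cubes it meets -/
lemma path {a : Fin d → ℝ} (ha : ∀ i, 0 < a i) {Λ k0 : ℝ} (hΛ : ∀ i, a i + l 0 ≤ Λ) (hk0 : 0 < k0)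
    (r : ℕ → ℕ → Fin d → Bool) (n : ℕ) (S : Finset ℕ) (h0 : ∀ k ∈ S, k0 ≤ (k : ℝ))
    (h : ∀ k ∈ S, ∀ k' ∈ S, k < k' → ∀ i, (k : ℝ) * pt a l (r k) i ≤ k' * pt a l (r k') i) :
    ∀ k ∈ S, (∀ k' ∈ S, k' ≤ k) →
      (1 - 2 * θ) * ∑ j ∈ range n, l j * (S.image fun k => pre (j + 1) (r k)).card ≤
      2 * l 0 + 2 * ∑ i, (2 * Λ * (Real.log k - Real.log k0) + (pt a l (r k) i - a i)) := by
  classical
  have hγ : 0 ≤ 1 - 2 * θ := by linarith
  induction S using Finset.induction_on_max with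
  | empty => simp
  | insert b S hb ih =>
    intro k hk hk'
    obtain rfl : k = b := le_antisymm (by
      rcases mem_insert.1 hk with h | h
      · exact h.le
      · exact (hb _ h).le) (hk' b (mem_insert_self _ _))
    rcases S.eq_empty_or_nonempty with rfl | hS
    · have h1 := sum_Ico_le hl hθ hr (Nat.zero_le n)
      have h2 : 0 ≤ ∑ i, (2 * Λ * (Real.log k - Real.log k0) + (pt a l (r k) i - a i)) :=
        sum_nonneg fun i _ => add_nonneg (mul_nonneg (by linarith [hΛ i, ha i, hl 0])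
          (sub_nonneg.2 (Real.log_le_log hk0 (h0 k hk)))) (sub_nonneg.2 (pt_mem hl hθ hr a _ i).1)
      have h3 : 0 ≤ θ := by nlinarith [hl 0, hl 1, hr 0]
      have h4 : 0 ≤ ∑ j ∈ range n, l j := sum_nonneg fun j _ => (hl j).le
      rw [← range_eq_Ico] at h1
      simp only [insert_empty_eq, image_singleton, card_singleton, Nat.cast_one, mul_one]
      nlinarith [hl n]
    · set k1 := S.max' hS with hk1
      have m1 : k1 ∈ S := S.max'_mem hS
      have i1 := ih (fun k hk => h0 k (mem_insert_of_mem hk))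
        (fun k hk k' hk' => h k (mem_insert_of_mem hk) k' (mem_insert_of_mem hk')) k1 m1
        fun k' hk' => S.le_max' k' hk'
      have i2 : ∑ j ∈ range n, l j * ((insert k S).image fun k => pre (j + 1) (r k)).card ≤
          ∑ j ∈ range n, l j * (S.image fun k => pre (j + 1) (r k)).card +
          ∑ j ∈ range n, (if pre (j + 1) (r k) = pre (j + 1) (r k1) then 0 else l j) := by
        rw [← sum_add_distrib]
        refine sum_le_sum fun j _ => ?_
        rw [image_insert]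
        split_ifs with e
        · rw [insert_eq_of_mem (mem_image.2 ⟨k1, m1, e.symm⟩), add_zero]
        · have : (((insert (pre (j + 1) (r k)) (S.image fun k => pre (j + 1) (r k))).card : ℕ) :
              ℝ) ≤ (S.image fun k => pre (j + 1) (r k)).card + 1 := by
            exact_mod_cast card_insert_le _ _
          nlinarith [hl j]
      have i3 := sum_ne_le hl hθ hr a (r k) (r k1) n
      have i4 : ∑ i, |pt a l (r k) i - pt a l (r k1) i| +
          ∑ i, (2 * Λ * (Real.log k1 - Real.log k0) + (pt a l (r k1) i - a i)) ≤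
          ∑ i, (2 * Λ * (Real.log k - Real.log k0) + (pt a l (r k) i - a i)) := by
        rw [← sum_add_distrib]
        refine sum_le_sum fun i _ => ?_
        have b1 := pt_mem hl hθ hr a (r k1) i
        have := abs_step (hk0.trans_le (h0 k1 (mem_insert_of_mem m1)))
          (Nat.cast_le.2 (hb k1 m1).le) ((ha i).le.trans b1.1) (b1.2.trans (hΛ i))
          (h k1 (mem_insert_of_mem m1) k hk (hb k1 m1) i)
        linarith
      have i5 := mul_le_mul_of_nonneg_left i2 hγ
      rw [mul_add] at i5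
      linarith

theorem no_cover {a : Fin d → ℝ} (ha : ∀ i, 0 < a i) (H : ℕ → (ℕ → Fin d → Bool) → Prop)
    (h1 : ∀ k ε ε', H k ε → H k ε' → ∀ i, (k : ℝ) * |pt a l ε i - pt a l ε' i| ≤ 1)
    (h2 : ∀ k k' ε ε', k < k' → H k ε → H k' ε' → ∀ i, (k : ℝ) * pt a l ε i ≤ k' * pt a l ε' i)
    (h3 : ∀ ε n, ∃ k, n ≤ k ∧ H k ε) :
    ¬ Summable fun j => Real.log (l j / l (j + 1)) / wt d l (j + 1) := by
  classical
  intro hs
  set γ : ℝ := 1 - 2 * θ with hγ
  have hγ0 : 0 < γ := by linarith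
  set Λ : ℝ := ∑ i, a i + l 0 with hΛd
  have hΛ : ∀ i, a i + l 0 ≤ Λ := fun i => by
    have := single_le_sum (f := a) (fun i _ => (ha i).le) (mem_univ i)
    linarith
  have hΛ0 : 0 ≤ Λ := add_nonneg (sum_nonneg fun i _ => (ha i).le) (hl 0).le
  have hant : Antitone l := antitone_nat_of_succ_le (dec hl hθ hr)
  have hlog : ∀ j, 1 / 2 ≤ Real.log (l j / l (j + 1)) := fun j => by
    have b1 : 2 ≤ l j / l (j + 1) := by
      rw [le_div_iff₀ (hl _)]
      linarith [half hl hθ hr j]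
    have := Real.log_le_log two_pos b1
    linarith [Real.log_two_gt_d9]
  set r : ℕ → ℕ → Fin d → Bool := fun k => if h : ∃ ε, H k ε then h.choose else default with hrd
  have hr' : ∀ k ε, H k ε → H k (r k) := fun k ε h => by
    simp only [hrd]
    rw [dif_pos ⟨ε, h⟩]
    exact Exists.choose_spec (⟨ε, h⟩ : ∃ ε, H k ε)
  set E : ℕ → Set (ℕ → Fin d → Bool) :=
    fun J => {ε | ∃ k : ℕ, 1 < k * (γ * l J) ∧ k * (γ * l (J + 1)) ≤ 1 ∧ H k ε} with hE
  set C : ℝ := (4 * l 0 + 2 * (d * (2 * Λ + 2 * l 0))) / γ with hC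
  have hC0 : 0 ≤ C := by have := hl 0; positivity
  have key : ∀ J, (mu d).real (E J) ≤ C * (Real.log (l J / l (J + 1)) / wt d l (J + 1)) := by
    intro J
    have p0 := hl J
    have p1 := hl (J + 1)
    have hw := wt_pos (d := d) hl J
    obtain ⟨N, hN⟩ := exists_nat_gt (1 / (γ * l (J + 1)))
    set S := (range N).filter fun k : ℕ =>
      1 < k * (γ * l J) ∧ k * (γ * l (J + 1)) ≤ 1 ∧ H k (r k) with hSd
    have hS : ∀ ε ∈ E J, ∃ k ∈ S, ∀ j, j ≤ J + 1 → pre j ε = pre j (r k) := by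
      rintro ε ⟨k, b1, b2, b3⟩
      refine ⟨k, mem_filter.2 ⟨mem_range.2 ?_, b1, b2, hr' k ε b3⟩, fun j hj => ?_⟩
      · have : (k : ℝ) ≤ 1 / (γ * l (J + 1)) := by rwa [le_div_iff₀ (by positivity)]
        exact_mod_cast this.trans_lt hN
      by_cases e : ε = r k
      · rw [← e]
      obtain ⟨m, c1, -, i, c2⟩ := pt_sep hl hθ hr a e
      refine c1 j ?_
      by_contra c3
      have c4 := hant (show m ≤ J by omega)
      have c5 := h1 k ε (r k) b3 (hr' k ε b3) i
      have c6 : (k : ℝ) * (γ * l J) ≤ k * |pt a l ε i - pt a l (r k) i| :=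
        mul_le_mul_of_nonneg_left ((mul_le_mul_of_nonneg_left c4 hγ0.le).trans c2)
          (Nat.cast_nonneg _)
      linarith
    have b1 : ∀ j ∈ range (J + 1), (mu d).real (E J) * ((2 ^ d : ℝ) ^ j * l j) ≤
        l j * (S.image fun k => pre (j + 1) (r k)).card := fun j hj => by
      have c1 : E J ⊆ ⋃ v ∈ S.image fun k => pre (j + 1) (r k), {ε | pre (j + 1) ε = v} :=
        fun ε hε => by
          obtain ⟨k, c2, c3⟩ := hS ε hε
          exact Set.mem_biUnion (mem_coe.2 (mem_image_of_mem _ c2))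
            (c3 _ (by have := mem_range.1 hj; omega))
      have c2 := (measureReal_mono (μ := mu d) c1 (measure_ne_top _ _)).trans (measureReal_biUnion_finset_le _ _)
      simp only [mu_cyl, sum_const, nsmul_eq_mul] at c2
      have c3 : (0 : ℝ) < (2 ^ d : ℝ) ^ j := by positivity
      have c4 : ((2 ^ d : ℝ) ^ (j + 1))⁻¹ ≤ ((2 ^ d : ℝ) ^ j)⁻¹ :=
        inv_anti₀ c3 (pow_le_pow_right₀ (one_le_pow₀ one_le_two) (Nat.le_succ j))
      have c5 := c2.trans (mul_le_mul_of_nonneg_left c4 (Nat.cast_nonneg _))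
      rw [← div_eq_mul_inv, le_div_iff₀ c3] at c5
      nlinarith [hl j]
    have b2 := sum_le_sum b1
    rw [← mul_sum] at b2
    have b3 : γ * ∑ j ∈ range (J + 1), l j * (S.image fun k => pre (j + 1) (r k)).card ≤
        (4 * l 0 + 2 * (d * (2 * Λ + 2 * l 0))) * Real.log (l J / l (J + 1)) := by
      have c0 := hlog J
      have c1 := hl 0
      rcases S.eq_empty_or_nonempty with e | hne
      · rw [e]
        simp only [image_empty, card_empty, Nat.cast_zero, mul_zero, sum_const_zero]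
        positivity
      have m1 := S.max'_mem hne
      have c2 := path hl hθ hr ha hΛ (show 0 < 1 / (γ * l J) by positivity) r (J + 1) S
        (fun k hk => by
          rw [div_le_iff₀ (by positivity)]
          exact (mem_filter.1 hk).2.1.le)
        (fun k hk k' hk' hkk => h2 k k' _ _ hkk (mem_filter.1 hk).2.2.2 (mem_filter.1 hk').2.2.2)
        _ m1 fun k' hk' => S.le_max' k' hk'
      set k := S.max' hne
      obtain ⟨-, c3, c4, -⟩ := mem_filter.1 m1
      have c5 : (0 : ℝ) < k := by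
        by_contra c
        nlinarith [mul_pos hγ0 p0, not_lt.1 c]
      have c6 : Real.log k - Real.log (1 / (γ * l J)) ≤ Real.log (l J / l (J + 1)) := by
        rw [← Real.log_div c5.ne' (by positivity)]
        refine Real.log_le_log (by positivity) ?_
        rw [div_le_div_iff₀ (by positivity) p1, mul_one_div, le_div_iff₀ (by positivity)]
        nlinarith
      have c7 : ∑ i, (2 * Λ * (Real.log k - Real.log (1 / (γ * l J))) + (pt a l (r k) i - a i)) ≤
          ∑ i : Fin d, (2 * Λ + 2 * l 0) * Real.log (l J / l (J + 1)) :=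
        sum_le_sum fun i _ => by
          have := (pt_mem hl hθ hr a (r k) i).2
          have := mul_le_mul_of_nonneg_left c6 hΛ0
          nlinarith
      rw [sum_const, card_univ, Fintype.card_fin, nsmul_eq_mul] at c7
      nlinarith
    rw [hC, ← mul_div_assoc, le_div_iff₀ hw, div_mul_eq_mul_div, le_div_iff₀ hγ0]
    have := mul_le_mul_of_nonneg_left b2 hγ0.le
    unfold wt
    linarith
  set f : ℕ → ℝ := fun J => C * (Real.log (l J / l (J + 1)) / wt d l (J + 1)) with hf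
  have hf0 : ∀ J, 0 ≤ f J := fun J => measureReal_nonneg.trans (key J)
  obtain ⟨J0, hJ0⟩ := ((tendsto_sum_nat_add f).eventually (gt_mem_nhds one_pos)).exists
  have hcov : (Set.univ : Set (ℕ → Fin d → Bool)) ⊆ ⋃ J, E (J + J0) := fun ε _ => by
    have p0 := hl J0
    obtain ⟨n, hn⟩ := exists_nat_gt (1 / (γ * l J0))
    obtain ⟨k, b1, b2⟩ := h3 ε n
    have b3 : 1 < k * (γ * l J0) := by
      rw [← div_lt_iff₀ (by positivity)]
      exact hn.trans_le (Nat.cast_le.2 b1)
    have b4 : ∃ J, (k : ℝ) * (γ * l (J + J0 + 1)) ≤ 1 := by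
      have c1 : Tendsto l atTop (𝓝 0) := Summable.tendsto_atTop_zero
        (summable_of_sum_range_le (c := 2 * l 0) (fun j => (hl j).le) fun n => by
          have := sum_Ico_le hl hθ hr (Nat.zero_le n)
          rw [← range_eq_Ico] at this
          linarith [hl n])
      have c2 := ((c1.comp (tendsto_add_atTop_nat (J0 + 1))).const_mul γ).const_mul (k : ℝ)
      simp only [mul_zero] at c2
      exact (c2.eventually (ge_mem_nhds one_pos)).exists
    refine Set.mem_iUnion.2 ⟨Nat.find b4, k, ?_, Nat.find_spec b4, b2⟩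
    rcases Nat.eq_zero_or_pos (Nat.find b4) with e | e
    · rwa [e, zero_add]
    · have := Nat.find_min b4 (show Nat.find b4 - 1 < Nat.find b4 by omega)
      rw [show Nat.find b4 - 1 + J0 + 1 = Nat.find b4 + J0 by omega] at this
      exact not_le.1 this
  have g1 := (measure_mono (μ := mu d) hcov).trans (measure_iUnion_le _)
  have g2 : ∑' J, mu d (E (J + J0)) ≤ ∑' J, ENNReal.ofReal (f (J + J0)) :=
    ENNReal.tsum_le_tsum fun J =>
      (ENNReal.le_ofReal_iff_toReal_le (measure_ne_top _ _) (hf0 _)).2 (key _)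
  rw [← ENNReal.ofReal_tsum_of_nonneg (fun J => hf0 _)
    ((summable_nat_add_iff J0).2 (hs.mul_left C))] at g2
  have g3 := g1.trans g2
  rw [measure_univ, ENNReal.one_le_ofReal] at g3
  linarith

end

variable {𝕜 : Type} [RCLike 𝕜]

/-- the orbit of `x` is close to the first basis vector at time `k` -/
def Hit (x : Fin d → C₀(ℕ, 𝕜)) (k : ℕ) (w : Fin d → ℝ) : Prop :=
  ∀ i n, ‖((Real.exp ((k : ℝ) * w i) : ℝ) : 𝕜) * x i (n + k) - if n = 0 then 1 else 0‖ ≤ 1 / 4

lemma Hit.zero {x : Fin d → C₀(ℕ, 𝕜)} {k : ℕ} {w : Fin d → ℝ} (h : Hit x k w) (i : Fin d) :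
    3 / 4 ≤ Real.exp (k * w i) * ‖x i k‖ ∧ Real.exp (k * w i) * ‖x i k‖ ≤ 5 / 4 := by
  have h1 := (abs_norm_sub_norm_le _ _).trans (h i 0)
  rw [if_pos rfl, zero_add, norm_exp_mul, norm_one, abs_le] at h1
  constructor <;> linarith

lemma Hit.same {x : Fin d → C₀(ℕ, 𝕜)} {k : ℕ} {w w' : Fin d → ℝ} (h : Hit x k w)
    (h' : Hit x k w') (i : Fin d) : (k : ℝ) * w i - k * w' i ≤ 1 := by
  have h1 := (h.zero i).2
  have h2 := (h'.zero i).1
  have h3 := Real.add_one_le_exp ((k : ℝ) * w i - k * w' i)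
  have h4 : Real.exp (k * w i) = Real.exp ((k : ℝ) * w i - k * w' i) * Real.exp (k * w' i) := by
    rw [← Real.exp_add, sub_add_cancel]
  rw [h4, mul_assoc] at h1
  have h5 := mul_le_mul_of_nonneg_left h2 (Real.exp_pos ((k : ℝ) * w i - k * w' i)).le
  linarith

lemma Hit.lt {x : Fin d → C₀(ℕ, 𝕜)} {k k' : ℕ} {w w' : Fin d → ℝ} (hk : k < k') (h : Hit x k w)
    (h' : Hit x k' w') (i : Fin d) : (k : ℝ) * w i ≤ k' * w' i := by
  have h1 := h i (k' - k)
  rw [if_neg (by omega), sub_zero, norm_exp_mul, Nat.sub_add_cancel hk.le] at h1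
  have h2 := (h'.zero i).1
  by_contra h3
  have := mul_le_mul_of_nonneg_right (Real.exp_le_exp.2 (not_le.1 h3).le) (norm_nonneg (x i k'))
  linarith

lemma hit_often {x : Fin d → C₀(ℕ, 𝕜)} {w : Fin d → ℝ} (h : DenseRange fun n => (rol w)^[n] x)
    (n : ℕ) : ∃ k, n ≤ k ∧ Hit x k w := by
  rcases isEmpty_or_nonempty (Fin d) with hd | hd
  · exact ⟨n, le_rfl, fun i => isEmptyElim i⟩
  set e : C₀(ℕ, 𝕜) := mkC0 (fun n => if n = 0 then 1 else 0) 1 fun n hn => if_neg (by omega)
    with he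
  have : Nontrivial C₀(ℕ, 𝕜) := ⟨e, 0, fun h0 => by
    simpa [he, mkC0_apply] using DFunLike.congr_fun h0 0⟩
  have : ∀ y : Fin d → C₀(ℕ, 𝕜), NeBot (𝓝[≠] y) := Module.punctured_nhds_neBot 𝕜 _
  have h1 := Dense.sdiff_finite h ((Set.finite_lt_nat n).image fun n => (rol w)^[n] x)
  obtain ⟨_, ⟨⟨k, rfl⟩, h2⟩, h3⟩ := h1.exists_dist_lt (fun _ => e) (show (0 : ℝ) < 1 / 4 by norm_num)
  refine ⟨k, not_lt.1 fun hk => h2 ⟨k, hk, rfl⟩, fun i m => ?_⟩
  rw [← rol_iter]
  rw [dist_comm] at h3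
  exact (norm_le _ (fun _ => e) i m).trans h3.le

theorem not_summable {l : ℕ → ℝ} {θ : ℝ} (hl : ∀ j, 0 < l j) (hθ : θ < 1 / 2)
    (hr : ∀ j, l (j + 1) ≤ θ * l j) {a : Fin d → ℝ} (ha : ∀ i, 0 < a i) {x : Fin d → C₀(ℕ, 𝕜)}
    (h : ∀ w ∈ dust a l, DenseRange fun n => (rol w)^[n] x) :
    ¬ Summable fun j => Real.log (l j / l (j + 1)) / wt d l (j + 1) := by
  refine no_cover hl hθ hr ha (fun k ε => Hit x k (pt a l ε)) (fun k ε ε' h1 h2 i => ?_)
    (fun k k' ε ε' hk h1 h2 => h1.lt hk h2) fun ε => hit_often (h _ fun i => ⟨_, rfl⟩)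
  rw [← Nat.abs_cast (R := ℝ) k, ← abs_mul, mul_sub, abs_le]
  exact ⟨by linarith [h2.same h1 i], h1.same h2 i⟩

theorem residual_common {l : ℕ → ℝ} (hl : ∀ j, 0 < l j) (hl' : ∀ j, l (j + 1) ≤ l j)
    (hl0 : Tendsto l atTop (𝓝 0)) {a : Fin d → ℝ} (ha : ∀ i, 0 < a i)
    (hs : ¬ Summable fun j => Real.log (l j / l (j + 1)) / wt d l (j + 1)) :
    ∀ᶠ x in residual (Fin d → C₀(ℕ, 𝕜)), ∀ w ∈ dust a l, DenseRange fun n => (rol w)^[n] x := by
  obtain ⟨m, hm0, hm⟩ : ∃ m : ℝ, 0 < m ∧ ∀ i, m ≤ a i :=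
    ((eventually_all.2 fun i => eventually_le_nhds (ha i)).filter_mono
      (nhdsWithin_le_nhds (s := Set.Ioi (0 : ℝ)))).and self_mem_nhdsWithin |>.exists.imp
      fun _ h => ⟨h.2, h.1⟩
  refine common (Λ := ∑ i, a i + l 0) hm0
    (add_nonneg (sum_nonneg fun i _ => (ha i).le) (hl 0).le) (fun w hw i => ?_) fun G τ n hG hτ => ?_
  · have := single_le_sum (f := a) (fun i _ => (ha i).le) (mem_univ i)
    linarith [(cell_close (k := 0) (fun j => (hl j).le) hl' hw i).2]
  · obtain ⟨n', h⟩ := exists_cov hG hτ hm0 hl hl' hl0 hs a hm n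
    exact ⟨a, _, hm, h⟩

end Pool.Agent.P.MP_1f345d_an.G
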